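import Pool.Agent.J4H50.YJ.Cy

set_option autoImplicit false

/-! # Project YJ, (P4): blowing up the origin of the plane -/

namespace Pool.Agent.J4H72.YJ

open MvPolynomial
open Pool.Agent.W428.MOT
open Pool.Agent.TH192.MT (ar)
open Pool.Agent.J4H50.YJ

section Order

variable {F : Type} [Field F]

theorem Od_iff (x : PowerSeries F) (l : ℕ) : Od x l ↔ x.order = (l : ℕ∞) := by
  rw [PowerSeries.order_eq_nat]
  exact and_comm

theorem Od_mul_iff {a : PowerSeries F} {i : ℕ} (ha : Od a i) (w : PowerSeries F) (l : ℕ) :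
    Od (a * w) l ↔ i ≤ l ∧ Od w (l - i) := by
  rw [Od_iff] at ha
  rw [Od_iff, Od_iff, PowerSeries.order_mul, ha]
  constructor
  · intro h
    have h1 : i ≤ l := by
      have : (i : ℕ∞) ≤ l := h ▸ le_self_add
      exact_mod_cast this
    refine ⟨h1, ?_⟩
    have h2 : ((l : ℕ) : ℕ∞) = (i : ℕ∞) + ((l - i : ℕ) : ℕ∞) := by
      rw [← Nat.cast_add, Nat.add_sub_cancel' h1]
    rw [h2] at h
    exact ENat.add_right_injective_of_ne_top (ENat.natCast_ne_top i) h
  · rintro ⟨h1, h2⟩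
    rw [h2, ← Nat.cast_add, Nat.add_sub_cancel' h1]

theorem Od_pow {a : PowerSeries F} {i : ℕ} (ha : Od a i) (m : ℕ) : Od (a ^ m) (m * i) := by
  rw [Od_iff] at ha ⊢
  rw [PowerSeries.order_pow, ha]
  simp

theorem exists_div {a b : PowerSeries F} {i : ℕ} (ha : Od a i)
    (hb : ∀ j < i, PowerSeries.coeff j b = 0) : ∃ w, b = a * w := by
  obtain ⟨b', hb'⟩ := PowerSeries.X_pow_dvd_iff.2 hb
  obtain ⟨a', ha'⟩ := PowerSeries.X_pow_dvd_iff.2 ha.1
  have hc : PowerSeries.coeff 0 a' ≠ 0 := by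
    have h := ha.2
    rw [ha'] at h
    rwa [PowerSeries.coeff_X_pow_mul', if_pos le_rfl, Nat.sub_self] at h
  have hu : a' * a'⁻¹ = 1 := PowerSeries.mul_inv_cancel a' (by
    rwa [← PowerSeries.coeff_zero_eq_constantCoeff_apply])
  refine ⟨a'⁻¹ * b', ?_⟩
  rw [hb', ha', mul_assoc, ← mul_assoc a', hu, one_mul]

theorem Od_zero_iff (x : PowerSeries F) : Od x 0 ↔ PowerSeries.coeff 0 x ≠ 0 := by
  constructor
  · exact fun h => h.2
  · exact fun h => ⟨fun j hj => absurd hj (Nat.not_lt_zero j), h⟩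

theorem Od_ne {x : PowerSeries F} {i : ℕ} (h : Od x i) : x ≠ 0 := by
  rintro rfl
  exact h.2 (by simp)

theorem lt_mul {a : PowerSeries F} {i : ℕ} (ha : Od a i) (w : PowerSeries F) (j : ℕ) (hj : j < i) :
    PowerSeries.coeff j (a * w) = 0 := by
  obtain ⟨a', ha'⟩ := PowerSeries.X_pow_dvd_iff.2 ha.1
  have h : PowerSeries.X ^ i ∣ a * w := ⟨a' * w, by rw [ha', mul_assoc]⟩
  exact PowerSeries.X_pow_dvd_iff.1 h j hj

end Order

section Alg

variable {K : Type} [Field K]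

theorem coeff_zero_aeval {σ : Type} (y : Ac K σ) (p : MvPolynomial σ K) :
    PowerSeries.coeff 0 (aeval y p) = aeval (fun i => PowerSeries.coeff 0 (y i)) p := by
  induction p using MvPolynomial.induction_on with
  | C a =>
    rw [algHom_C, algHom_C, PowerSeries.algebraMap_apply, PowerSeries.coeff_zero_C]
  | add p q hp hq => rw [map_add, map_add, map_add, hp, hq]
  | mul_X p i hp =>
    rw [map_mul (aeval y), aeval_X, map_mul (aeval fun i => PowerSeries.coeff 0 (y i)), aeval_X,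
      ← hp]
    simp only [PowerSeries.coeff_zero_eq_constantCoeff_apply, map_mul]

/-- the chart of the blowing up -/
theorem aeval_bl (h : MvPolynomial (Fin 2) K) (m : ℕ) (hc : K → MvPolynomial (Fin 2) K)
    (hh : ∀ c, aeval ![X 0, X 0 * (X 1 + C c)] h = X 0 ^ m * hc c) (x y : Ac K (Fin 2))
    (h0 : x 0 = y 0) (h1 : x 1 = y 0 * y 1) : aeval x h = y 0 ^ m * aeval y (hc 0) := by
  have e := congrArg (aeval y) (hh 0)
  rw [map_mul, map_pow, aeval_X, comp_aeval_apply] at e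
  rw [← e]
  congr 2
  funext i
  fin_cases i
  · simp [h0]
  · simp [h1]

/-- translations of the second coordinate -/
theorem aeval_tr (h : MvPolynomial (Fin 2) K) (m : ℕ) (hc : K → MvPolynomial (Fin 2) K)
    (hh : ∀ c, aeval ![X 0, X 0 * (X 1 + C c)] h = X 0 ^ m * hc c) (c : K) :
    aeval (![X 0, X 1 + C c] : Fin 2 → MvPolynomial (Fin 2) K) (hc 0) = hc c := by
  have e := congrArg (aeval (![X 0, X 1 + C c] : Fin 2 → MvPolynomial (Fin 2) K)) (hh 0)
  rw [map_mul, map_pow, aeval_X, comp_aeval_apply] at e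
  have e2 : (fun i => aeval (![X 0, X 1 + C c] : Fin 2 → MvPolynomial (Fin 2) K)
      ((![X 0, X 0 * (X 1 + C 0)] : Fin 2 → MvPolynomial (Fin 2) K) i)) =
      ![X 0, X 0 * (X 1 + C c)] := by
    funext i
    fin_cases i
    · simp
    · simp
  rw [e2, hh c] at e
  have e3 : (![X 0, X 1 + C c] : Fin 2 → MvPolynomial (Fin 2) K) 0 = X 0 := rfl
  rw [e3] at e
  exact (mul_left_cancel₀ (pow_ne_zero m (X_ne_zero (0 : Fin 2))) e).symm

theorem aeval_tr' (h : MvPolynomial (Fin 2) K) (m : ℕ) (hc : K → MvPolynomial (Fin 2) K)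
    (hh : ∀ c, aeval ![X 0, X 0 * (X 1 + C c)] h = X 0 ^ m * hc c) (c : K) (y : Ac K (Fin 2)) :
    aeval (![y 0, y 1 + PowerSeries.C (algebraMap K (AlgebraicClosure K) c)] : Ac K (Fin 2))
      (hc 0) = aeval y (hc c) := by
  rw [← aeval_tr h m hc hh c, comp_aeval_apply]
  congr 2
  funext i
  fin_cases i
  · simp
  · simp [PowerSeries.algebraMap_apply]

theorem const_ne (h : MvPolynomial (Fin 2) K) (m : ℕ) (hc : K → MvPolynomial (Fin 2) K)
    (hh : ∀ c, aeval ![X 0, X 0 * (X 1 + C c)] h = X 0 ^ m * hc c) (c : K)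
    (hcc : constantCoeff (hc c) ≠ 0) (y : Ac K (Fin 2)) (h0 : PowerSeries.coeff 0 (y 0) = 0)
    (h1 : PowerSeries.coeff 0 (y 1) = algebraMap K (AlgebraicClosure K) c) :
    PowerSeries.coeff 0 (aeval y (hc 0)) ≠ 0 := by
  have e : y = ![(![y 0, y 1 - PowerSeries.C (algebraMap K (AlgebraicClosure K) c)] :
      Ac K (Fin 2)) 0, (![y 0, y 1 - PowerSeries.C (algebraMap K (AlgebraicClosure K) c)] :
      Ac K (Fin 2)) 1 + PowerSeries.C (algebraMap K (AlgebraicClosure K) c)] := by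
    funext i
    fin_cases i
    · simp
    · simp
  rw [e, aeval_tr' h m hc hh c, coeff_zero_aeval]
  have e2 : (fun i => PowerSeries.coeff 0 ((![y 0, y 1 - PowerSeries.C (algebraMap K
      (AlgebraicClosure K) c)] : Ac K (Fin 2)) i)) = 0 := by
    funext i
    fin_cases i
    · simpa using h0
    · simpa [sub_eq_zero] using h1
  rw [e2, aeval_zero]
  intro h2
  exact hcc ((map_eq_zero (algebraMap K (AlgebraicClosure K))).1 h2)

end Alg

section Vol

variable {K : Type} [Field K] {R : Type} [CommRing R] (M : Meas K R) (v : R) (hv : M.L * v = 1)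
  (hB : Bas)

include hv hB in
theorem vol_tr (c : K) (A B : Set (Ac K (Fin 2))) (hA : IsCyl A) (hB' : IsCyl B)
    (hAB : ∀ y, y ∈ A ↔
      (![y 0, y 1 + PowerSeries.C (algebraMap K (AlgebraicClosure K) c)] : Ac K (Fin 2)) ∈ B) :
    vol M v A = vol M v B := by
  refine hB.iso M v hv rfl A B hA hB'
    (fun y => ![y 0, y 1 + PowerSeries.C (algebraMap K (AlgebraicClosure K) c)])
    (fun y => ![y 0, y 1 - PowerSeries.C (algebraMap K (AlgebraicClosure K) c)]) ?_ ?_ ?_ ?_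
  · intro x hx
    refine ⟨(hAB x).1 hx, ?_⟩
    funext i
    fin_cases i
    · simp
    · simp
  · intro y hy
    have e : (![(![y 0, y 1 - PowerSeries.C (algebraMap K (AlgebraicClosure K) c)] :
        Ac K (Fin 2)) 0, (![y 0, y 1 - PowerSeries.C (algebraMap K (AlgebraicClosure K) c)] :
        Ac K (Fin 2)) 1 + PowerSeries.C (algebraMap K (AlgebraicClosure K) c)] :
        Ac K (Fin 2)) = y := by
      funext i
      fin_cases i
      · simp
      · simp
    refine ⟨(hAB _).2 ?_, e⟩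
    rw [e]
    exact hy
  · intro i
    fin_cases i
    · refine ⟨X (some 0), 1, fun x _ => ?_⟩
      simp [ev]
    · refine ⟨X (some 1) + C c, 1, fun x _ => ?_⟩
      simp [ev, PowerSeries.algebraMap_apply]
  · intro i
    fin_cases i
    · refine ⟨X (some 0), 1, fun x _ => ?_⟩
      simp [ev]
    · refine ⟨X (some 1) - C c, 1, fun x _ => ?_⟩
      simp [ev, PowerSeries.algebraMap_apply]

include hv hB in
/-- the arcs with `ord (y 0) = i` -/
theorem vol_E (hP1 : S_P1) (i : ℕ) (hi : 1 ≤ i) :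
    vol M v {y : Ac K (Fin 2) | Od (y 0) i} = mo v (some i) := by
  have h2 := (hB.sc M v hv (σ := Fin 2) ![0, 1] {y | Od (y 0) i}
    (cyl_Odx M v hv hB.v1 hB.cc 0 i)).2
  have e : {x : Ac K (Fin 2) | ∃ y ∈ {y : Ac K (Fin 2) | Od (y 0) i},
      ∀ k, x k = PowerSeries.X ^ (![0, 1] : Fin 2 → ℕ) k * y k} = A2 1 (some i) none 0 := by
    ext x
    simp only [Set.mem_ofPred_eq, A2, oc, Fin.forall_fin_two]
    constructor
    · rintro ⟨y, hy, h0, h1⟩
      have h0' : x 0 = y 0 := by simpa using h0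
      have h1' : x 1 = PowerSeries.X * y 1 := by simpa using h1
      refine ⟨h0' ▸ hy, ?_, ?_⟩
      · rw [h1']
        simp
      · rw [map_one, Od_zero_iff]
        simp
    · rintro ⟨h0, h1, -⟩
      have hd : (PowerSeries.X : PowerSeries (AlgebraicClosure K)) ∣ x 1 :=
        PowerSeries.X_dvd_iff.2 (by rwa [← PowerSeries.coeff_zero_eq_constantCoeff_apply])
      obtain ⟨w, hw⟩ := hd
      refine ⟨![x 0, w], by simpa using h0, by simp, by simpa using hw⟩
  rw [e, hP1 M v hv 1 (by simp) (some i) none 0 (fun j hj => by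
    rw [← Option.some.inj hj]; exact hi) (fun j hj => by simp at hj), if_pos rfl] at h2
  have h3 : ∑ k, (![0, 1] : Fin 2 → ℕ) k = 1 := by simp
  rw [h3, pow_one] at h2
  have h4 : mo v none = v := rfl
  rw [h4] at h2
  calc vol M v {y : Ac K (Fin 2) | Od (y 0) i}
      = (M.L * v) * vol M v {y : Ac K (Fin 2) | Od (y 0) i} := by rw [hv, one_mul]
    _ = M.L * (mo v (some i) * v) := by rw [h2, mul_assoc]
    _ = (M.L * v) * mo v (some i) := by ring
    _ = mo v (some i) := by rw [hv, one_mul]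

omit [CommRing R] hv in
include hB in
theorem cyl_pt (c : K) : IsCyl {y : Ac K (Fin 2) | PowerSeries.coeff 0 (y 1) =
    algebraMap K (AlgebraicClosure K) c} := by
  have h := cyl_coeff (K := K) hB.cc (X 1 - C c : MvPolynomial (Fin 2) K) 0
  have e : {x : Ac K (Fin 2) | PowerSeries.coeff 0 (aeval x (X 1 - C c)) = 0} =
      {y : Ac K (Fin 2) | PowerSeries.coeff 0 (y 1) = algebraMap K (AlgebraicClosure K) c} := by
    ext x
    simp only [Set.mem_ofPred_eq, map_sub, aeval_X, algHom_C, PowerSeries.algebraMap_apply,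
      PowerSeries.coeff_zero_C, sub_eq_zero]
  rwa [e] at h

include hv hB in
theorem cyl_not (S : Finset K) : IsCyl {y : Ac K (Fin 2) | ∀ c ∈ S,
    PowerSeries.coeff 0 (y 1) ≠ algebraMap K (AlgebraicClosure K) c} :=
  cyl_finInter M v hv hB.v1 S (fun c => {y : Ac K (Fin 2) | PowerSeries.coeff 0 (y 1) =
    algebraMap K (AlgebraicClosure K) c}ᶜ) fun c _ => (cyl_ops M v hv hB.v1).1 _ (cyl_pt hB c)

include hv hB in
/-- one point of the exceptional line -/
theorem vol_pt (h : MvPolynomial (Fin 2) K) (m : ℕ) (hc : K → MvPolynomial (Fin 2) K)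
    (hh : ∀ c, aeval ![X 0, X 0 * (X 1 + C c)] h = X 0 ^ m * hc c) (c : K) (i k : ℕ) :
    vol M v {y : Ac K (Fin 2) | Od (y 0) i ∧ PowerSeries.coeff 0 (y 1) =
      algebraMap K (AlgebraicClosure K) c ∧ Od (aeval y (hc 0)) k} =
      vol M v (A2 (hc c) (some i) none k) := by
  refine (vol_tr M v hv hB c _ _ (cyl_A2 M v hv hB.v1 hB.cc _ _ _ _) ?_ ?_).symm
  · exact (cyl_ops M v hv hB.v1).2.1 _ _ (cyl_Odx M v hv hB.v1 hB.cc 0 i)
      ((cyl_ops M v hv hB.v1).2.1 _ _ (cyl_pt hB c) (cyl_Od M v hv hB.v1 hB.cc (hc 0) k))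
  · intro y
    simp only [A2, oc, Set.mem_ofPred_eq]
    rw [aeval_tr' h m hc hh c y]
    simp

include hv hB in
theorem vol_E_pt (hP1 : S_P1) (c : K) (i : ℕ) (hi : 1 ≤ i) :
    vol M v {y : Ac K (Fin 2) | Od (y 0) i ∧ PowerSeries.coeff 0 (y 1) =
      algebraMap K (AlgebraicClosure K) c} = mo v (some i) * v := by
  have h1 := vol_pt M v hv hB 1 0 (fun _ => 1) (fun c => by simp) c i 0
  rw [hP1 M v hv 1 (by simp) (some i) none 0 (fun j hj => by
    rw [← Option.some.inj hj]; exact hi) (fun j hj => by simp at hj), if_pos rfl] at h1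
  have h2 : mo v none = v := rfl
  rw [h2] at h1
  rw [← h1]
  congr 1
  ext y
  simp only [Set.mem_ofPred_eq, map_one, Od_zero_iff]
  simp

include hv hB in
/-- the other points of the exceptional line -/
theorem vol_rest (hP1 : S_P1) (S : Finset K) (i : ℕ) (hi : 1 ≤ i) :
    vol M v {y : Ac K (Fin 2) | Od (y 0) i ∧ ∀ c ∈ S, PowerSeries.coeff 0 (y 1) ≠
      algebraMap K (AlgebraicClosure K) c} = mo v (some i) * (1 - (S.card : R) * v) := by
  have hE := cyl_Odx (K := K) (σ := Fin 2) M v hv hB.v1 hB.cc 0 i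
  have hEc : ∀ c ∈ S, IsCyl {y : Ac K (Fin 2) | Od (y 0) i ∧ PowerSeries.coeff 0 (y 1) =
      algebraMap K (AlgebraicClosure K) c} := fun c _ =>
    (cyl_ops M v hv hB.v1).2.1 _ _ hE (cyl_pt hB c)
  have h1 := vol_finUnion M v hv hB.v1 S _ hEc (by
    intro a _ b _ hab
    rw [Set.disjoint_left]
    rintro y ⟨-, h2⟩ ⟨-, h3⟩
    exact hab ((algebraMap K (AlgebraicClosure K)).injective (h2.symm.trans h3)))
  have h2 := vol_diff M v hv hB.v1 {y : Ac K (Fin 2) | Od (y 0) i}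
    {x | ∃ c ∈ S, x ∈ {y : Ac K (Fin 2) | Od (y 0) i ∧ PowerSeries.coeff 0 (y 1) =
      algebraMap K (AlgebraicClosure K) c}} hE (cyl_finUnion M v hv hB.v1 S _ hEc) (by
    rintro y ⟨c, -, hy, -⟩
    exact hy)
  rw [h1, vol_E M v hv hB hP1 i hi, Finset.sum_congr rfl (fun c _ =>
    vol_E_pt M v hv hB hP1 c i hi), Finset.sum_const, nsmul_eq_mul] at h2
  have e : {x : Ac K (Fin 2) | x ∈ {y : Ac K (Fin 2) | Od (y 0) i} ∧
      x ∉ {x | ∃ c ∈ S, x ∈ {y : Ac K (Fin 2) | Od (y 0) i ∧ PowerSeries.coeff 0 (y 1) =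
      algebraMap K (AlgebraicClosure K) c}}} = {y : Ac K (Fin 2) | Od (y 0) i ∧ ∀ c ∈ S,
      PowerSeries.coeff 0 (y 1) ≠ algebraMap K (AlgebraicClosure K) c} := by
    ext y
    simp only [Set.mem_ofPred_eq, not_exists, not_and]
    constructor
    · exact fun h => ⟨h.1, fun c hc => h.2 c hc h.1⟩
    · exact fun h => ⟨h.1, fun c hc _ => h.2 c hc⟩
  rw [e] at h2
  rw [h2]
  ring

include hv hB in
theorem vol_U [IsAlgClosed K] (hP1 : S_P1) (h : MvPolynomial (Fin 2) K) (m : ℕ)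
    (hc : K → MvPolynomial (Fin 2) K)
    (hh : ∀ c, aeval ![X 0, X 0 * (X 1 + C c)] h = X 0 ^ m * hc c) (S T : Finset K) (hT : T ⊆ S)
    (hS : ∀ c ∉ S, constantCoeff (hc c) ≠ 0) (i k : ℕ) (hi : 1 ≤ i) :
    vol M v {y : Ac K (Fin 2) | Od (y 0) i ∧ ((∃ c ∈ T, PowerSeries.coeff 0 (y 1) =
      algebraMap K (AlgebraicClosure K) c) ∨ ∀ c ∈ S, PowerSeries.coeff 0 (y 1) ≠
      algebraMap K (AlgebraicClosure K) c) ∧ Od (aeval y (hc 0)) k} =
      ∑ c ∈ T, vol M v (A2 (hc c) (some i) none k) +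
        if k = 0 then mo v (some i) * (1 - (S.card : R) * v) else 0 := by
  have hE := cyl_Odx (K := K) (σ := Fin 2) M v hv hB.v1 hB.cc 0 i
  have hO := cyl_Od (K := K) M v hv hB.v1 hB.cc (hc 0) k
  have hBc : ∀ c ∈ T, IsCyl {y : Ac K (Fin 2) | Od (y 0) i ∧ PowerSeries.coeff 0 (y 1) =
      algebraMap K (AlgebraicClosure K) c ∧ Od (aeval y (hc 0)) k} := fun c _ =>
    (cyl_ops M v hv hB.v1).2.1 _ _ hE ((cyl_ops M v hv hB.v1).2.1 _ _ (cyl_pt hB c) hO)
  have hB' : IsCyl {y : Ac K (Fin 2) | Od (y 0) i ∧ (∀ c ∈ S, PowerSeries.coeff 0 (y 1) ≠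
      algebraMap K (AlgebraicClosure K) c) ∧ Od (aeval y (hc 0)) k} :=
    (cyl_ops M v hv hB.v1).2.1 _ _ hE ((cyl_ops M v hv hB.v1).2.1 _ _ (cyl_not M v hv hB S) hO)
  have e : {y : Ac K (Fin 2) | Od (y 0) i ∧ ((∃ c ∈ T, PowerSeries.coeff 0 (y 1) =
      algebraMap K (AlgebraicClosure K) c) ∨ ∀ c ∈ S, PowerSeries.coeff 0 (y 1) ≠
      algebraMap K (AlgebraicClosure K) c) ∧ Od (aeval y (hc 0)) k} =
      {x | ∃ c ∈ T, x ∈ {y : Ac K (Fin 2) | Od (y 0) i ∧ PowerSeries.coeff 0 (y 1) =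
        algebraMap K (AlgebraicClosure K) c ∧ Od (aeval y (hc 0)) k}} ∪
      {y : Ac K (Fin 2) | Od (y 0) i ∧ (∀ c ∈ S, PowerSeries.coeff 0 (y 1) ≠
      algebraMap K (AlgebraicClosure K) c) ∧ Od (aeval y (hc 0)) k} := by
    ext y
    simp only [Set.mem_ofPred_eq, Set.mem_union]
    constructor
    · rintro ⟨h1, h2 | h2, h3⟩
      · obtain ⟨c, hcT, h4⟩ := h2
        exact Or.inl ⟨c, hcT, h1, h4, h3⟩
      · exact Or.inr ⟨h1, h2, h3⟩
    · rintro (⟨c, hcT, h1, h4, h3⟩ | ⟨h1, h2, h3⟩)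
      · exact ⟨h1, Or.inl ⟨c, hcT, h4⟩, h3⟩
      · exact ⟨h1, Or.inr h2, h3⟩
  rw [e, (hB.v1 M v hv (σ := Fin 2)).2.2.1 _ _ (cyl_finUnion M v hv hB.v1 T _ hBc) hB' (by
    rw [Set.disjoint_left]
    rintro y ⟨c, hcT, -, h4, -⟩ ⟨-, h2, -⟩
    exact h2 c (hT hcT) h4), vol_finUnion M v hv hB.v1 T _ hBc (by
    intro a _ b _ hab
    rw [Set.disjoint_left]
    rintro y ⟨-, h2, -⟩ ⟨-, h3, -⟩
    exact hab ((algebraMap K (AlgebraicClosure K)).injective (h2.symm.trans h3)))]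
  refine congrArg₂ (· + ·) (Finset.sum_congr rfl fun c _ => vol_pt M v hv hB h m hc hh c i k) ?_
  have hunit : ∀ y : Ac K (Fin 2), Od (y 0) i → (∀ c ∈ S, PowerSeries.coeff 0 (y 1) ≠
      algebraMap K (AlgebraicClosure K) c) → Od (aeval y (hc 0)) 0 := by
    intro y h1 h2
    obtain ⟨c, hcc⟩ := (IsAlgClosed.algebraMap_bijective_of_isIntegral (k := K)
      (K := AlgebraicClosure K)).2 (PowerSeries.coeff 0 (y 1))
    have hcS : c ∉ S := fun hcS => h2 c hcS hcc.symm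
    rw [Od_zero_iff]
    exact const_ne h m hc hh c (hS c hcS) y (h1.1 0 (by omega)) hcc.symm
  by_cases hk : k = 0
  · rw [if_pos hk, ← vol_rest M v hv hB hP1 S i hi]
    congr 1
    ext y
    simp only [Set.mem_ofPred_eq, hk]
    exact ⟨fun h => ⟨h.1, h.2.1⟩, fun h => ⟨h.1, h.2, hunit y h.1 h.2⟩⟩
  · rw [if_neg hk]
    have e2 : {y : Ac K (Fin 2) | Od (y 0) i ∧ (∀ c ∈ S, PowerSeries.coeff 0 (y 1) ≠
        algebraMap K (AlgebraicClosure K) c) ∧ Od (aeval y (hc 0)) k} = ∅ := by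
      rw [Set.eq_empty_iff_forall_notMem]
      rintro y ⟨h1, h2, h3⟩
      exact hk (Od_unique h3 (hunit y h1 h2))
    rw [e2]
    exact (hB.v1 M v hv (σ := Fin 2)).2.2.2.2

include hv hB in
theorem vol_bl (hBL : S_BL) (h : MvPolynomial (Fin 2) K) (m : ℕ)
    (hc : K → MvPolynomial (Fin 2) K)
    (hh : ∀ c, aeval ![X 0, X 0 * (X 1 + C c)] h = X 0 ^ m * hc c)
    (W : PowerSeries (AlgebraicClosure K) → Prop) (hW : IsCyl {y : Ac K (Fin 2) | W (y 1)})
    (i l : ℕ) :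
    vol M v {x : Ac K (Fin 2) | Od (x 0) i ∧ (∃ w, x 1 = x 0 * w ∧ W w) ∧ Od (aeval x h) l} =
      if m * i ≤ l then v ^ i * vol M v {y : Ac K (Fin 2) | Od (y 0) i ∧ W (y 1) ∧
        Od (aeval y (hc 0)) (l - m * i)} else 0 := by
  split_ifs with hl
  · rw [← (hBL M v hv {y : Ac K (Fin 2) | Od (y 0) i ∧ W (y 1) ∧
        Od (aeval y (hc 0)) (l - m * i)} i ((cyl_ops M v hv hB.v1).2.1 _ _
        (cyl_Odx M v hv hB.v1 hB.cc 0 i) ((cyl_ops M v hv hB.v1).2.1 _ _ hW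
        (cyl_Od M v hv hB.v1 hB.cc (hc 0) (l - m * i)))) fun x hx => hx.1).2]
    congr 1
    ext x
    simp only [Set.mem_ofPred_eq]
    constructor
    · rintro ⟨h1, ⟨w, h2, h3⟩, h4⟩
      have h5 := aeval_bl h m hc hh x ![x 0, w] rfl h2
      rw [h5] at h4
      refine ⟨![x 0, w], ⟨h1, h3, ?_⟩, rfl, h2⟩
      exact ((Od_mul_iff (Od_pow h1 m) _ l).1 h4).2
    · rintro ⟨y, ⟨h1, h3, h4⟩, h5, h6⟩
      refine ⟨h5 ▸ h1, ⟨y 1, h5 ▸ h6, h3⟩, ?_⟩
      rw [aeval_bl h m hc hh x y h5 h6]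
      exact (Od_mul_iff (Od_pow h1 m) _ l).2 ⟨hl, h4⟩
  · have e2 : {x : Ac K (Fin 2) | Od (x 0) i ∧ (∃ w, x 1 = x 0 * w ∧ W w) ∧
        Od (aeval x h) l} = ∅ := by
      rw [Set.eq_empty_iff_forall_notMem]
      rintro x ⟨h1, ⟨w, h2, h3⟩, h4⟩
      have h5 := aeval_bl h m hc hh x ![x 0, w] rfl h2
      rw [h5] at h4
      exact hl ((Od_mul_iff (Od_pow h1 m) _ l).1 h4).1
    rw [e2]
    exact (hB.v1 M v hv (σ := Fin 2)).2.2.2.2

end Vol

theorem t_P4 : Bas → S_BL → S_P1 → S_P4 := by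
  intro hB hBL hP1 K _ _ _ R _ M v hv h m hc hh S h0S hS i l hi
  have hO := (cyl_ops (K := K) (σ := Fin 2) M v hv hB.v1)
  have hsum : ∀ a b : R, (if m * i ≤ l then v ^ i * (a + if l - m * i = 0 then b else 0) else 0) =
      (if m * i ≤ l then v ^ i * a else 0) + (if l = m * i then v ^ i * b else 0) := by
    intro a b
    by_cases h1 : m * i ≤ l
    · by_cases h2 : l = m * i
      · rw [if_pos h1, if_pos h1, if_pos h2, if_pos (by omega)]
        ring
      · rw [if_pos h1, if_pos h1, if_neg h2, if_neg (by omega)]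
        ring
    · rw [if_neg h1, if_neg h1, if_neg (by omega)]
      ring
  refine ⟨?_, ?_, ?_⟩
  · have h1 := vol_bl M v hv hB hBL h m hc hh (fun _ => True) (by
      have e : {y : Ac K (Fin 2) | (fun _ : PowerSeries (AlgebraicClosure K) => True) (y 1)} =
        Set.univ := Set.eq_univ_of_forall fun _ => trivial
      rw [e]
      exact hO.2.2.2.1) i l
    have e1 : {x ∈ A2 h (some i) none l | ∀ j < i, PowerSeries.coeff j (x 1) = 0} =
        {x : Ac K (Fin 2) | Od (x 0) i ∧ (∃ w, x 1 = x 0 * w ∧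
          (fun _ : PowerSeries (AlgebraicClosure K) => True) w) ∧ Od (aeval x h) l} := by
      ext x
      simp only [A2, oc, Set.mem_ofPred_eq]
      constructor
      · rintro ⟨⟨h2, h3, h4⟩, h5⟩
        obtain ⟨w, hw⟩ := exists_div h2 h5
        exact ⟨h2, ⟨w, hw, trivial⟩, h4⟩
      · rintro ⟨h2, ⟨w, hw, -⟩, h4⟩
        have h5 : ∀ j < i, PowerSeries.coeff j (x 1) = 0 := fun j hj => by
          rw [hw]
          exact lt_mul h2 w j hj
        exact ⟨⟨h2, h5 0 (by omega), h4⟩, h5⟩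
    rw [e1, h1, ← hsum, ← vol_U M v hv hB hP1 h m hc hh S S (Finset.Subset.refl S) hS i
      (l - m * i) hi]
    have e2 : {y : Ac K (Fin 2) | Od (y 0) i ∧
        (fun _ : PowerSeries (AlgebraicClosure K) => True) (y 1) ∧
        Od (aeval y (hc 0)) (l - m * i)} =
        {y : Ac K (Fin 2) | Od (y 0) i ∧ ((∃ c ∈ S, PowerSeries.coeff 0 (y 1) =
        algebraMap K (AlgebraicClosure K) c) ∨ ∀ c ∈ S, PowerSeries.coeff 0 (y 1) ≠
        algebraMap K (AlgebraicClosure K) c) ∧ Od (aeval y (hc 0)) (l - m * i)} := by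
      ext y
      simp only [Set.mem_ofPred_eq, true_and]
      refine and_congr_right fun _ => ⟨fun h2 => ⟨?_, h2⟩, fun h2 => h2.2⟩
      by_cases h3 : ∃ c ∈ S, PowerSeries.coeff 0 (y 1) = algebraMap K (AlgebraicClosure K) c
      · exact Or.inl h3
      · push Not at h3
        exact Or.inr h3
    rw [e2]
  · have h1 := vol_bl M v hv hB hBL h m hc hh (fun w => PowerSeries.coeff 0 w ≠ 0)
      (hO.1 _ (cyl_coord hB.cc 1 0)) i l
    have e1 : A2 h (some i) (some i) l =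
        {x : Ac K (Fin 2) | Od (x 0) i ∧ (∃ w, x 1 = x 0 * w ∧
          (fun w : PowerSeries (AlgebraicClosure K) => PowerSeries.coeff 0 w ≠ 0) w) ∧
          Od (aeval x h) l} := by
      ext x
      simp only [A2, oc, Set.mem_ofPred_eq]
      constructor
      · rintro ⟨h2, h3, h4⟩
        obtain ⟨w, hw⟩ := exists_div h2 h3.1
        rw [hw, Od_mul_iff h2, Nat.sub_self, Od_zero_iff] at h3
        exact ⟨h2, ⟨w, hw, h3.2⟩, h4⟩
      · rintro ⟨h2, ⟨w, hw, h3⟩, h4⟩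
        refine ⟨h2, ?_, h4⟩
        rw [hw, Od_mul_iff h2, Nat.sub_self, Od_zero_iff]
        exact ⟨le_rfl, h3⟩
    rw [e1, h1, ← hsum, ← vol_U M v hv hB hP1 h m hc hh S (S.erase 0) (Finset.erase_subset _ _)
      hS i (l - m * i) hi]
    have e2 : {y : Ac K (Fin 2) | Od (y 0) i ∧
        (fun w : PowerSeries (AlgebraicClosure K) => PowerSeries.coeff 0 w ≠ 0) (y 1) ∧
        Od (aeval y (hc 0)) (l - m * i)} =
        {y : Ac K (Fin 2) | Od (y 0) i ∧ ((∃ c ∈ S.erase 0, PowerSeries.coeff 0 (y 1) =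
        algebraMap K (AlgebraicClosure K) c) ∨ ∀ c ∈ S, PowerSeries.coeff 0 (y 1) ≠
        algebraMap K (AlgebraicClosure K) c) ∧ Od (aeval y (hc 0)) (l - m * i)} := by
      ext y
      simp only [Set.mem_ofPred_eq]
      refine and_congr_right fun _ => and_congr_left fun _ => ⟨fun h2 => ?_, ?_⟩
      · by_cases h3 : ∃ c ∈ S, PowerSeries.coeff 0 (y 1) = algebraMap K (AlgebraicClosure K) c
        · obtain ⟨c, hcS, h4⟩ := h3
          refine Or.inl ⟨c, Finset.mem_erase.2 ⟨?_, hcS⟩, h4⟩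
          rintro rfl
          exact h2 (by rw [h4, map_zero])
        · push Not at h3
          exact Or.inr h3
      · rintro (⟨c, hcS, h4⟩ | h3)
        · intro h5
          refine (Finset.mem_erase.1 hcS).1 ((map_eq_zero (algebraMap K (AlgebraicClosure K))).1 ?_)
          rw [← h4, h5]
        · intro h5
          exact h3 0 h0S (by rw [h5, map_zero])
    rw [e2]
  · intro j hj
    have h1 := vol_bl M v hv hB hBL h m hc hh (fun w => Od w (j - i))
      (cyl_Odx M v hv hB.v1 hB.cc 1 (j - i)) i l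
    have e1 : A2 h (some i) (some j) l =
        {x : Ac K (Fin 2) | Od (x 0) i ∧ (∃ w, x 1 = x 0 * w ∧
          (fun w : PowerSeries (AlgebraicClosure K) => Od w (j - i)) w) ∧
          Od (aeval x h) l} := by
      ext x
      simp only [A2, oc, Set.mem_ofPred_eq]
      constructor
      · rintro ⟨h2, h3, h4⟩
        obtain ⟨w, hw⟩ := exists_div h2 fun k hk => h3.1 k (by omega)
        rw [hw, Od_mul_iff h2] at h3
        exact ⟨h2, ⟨w, hw, h3.2⟩, h4⟩
      · rintro ⟨h2, ⟨w, hw, h3⟩, h4⟩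
        refine ⟨h2, ?_, h4⟩
        rw [hw, Od_mul_iff h2]
        exact ⟨hj.le, h3⟩
    rw [e1, h1]
    rfl

end Pool.Agent.J4H72.YJ
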